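import Pool.Agent.Helper92.FR.GoalsA

/-!
# Few rows in a box: packet BND (bounds for the exponents)
-/

namespace Pool.Agent.Helper44.FR

open MeasureTheory Matrix
open Pool.Agent.Helper92.FR

noncomputable section

variable {N d : ℕ}

/-- The weight of the column `j`. -/
def rr (C : Fin N → Fin d → ℝ) (S lam : Fin d → ℝ) (j : Fin N ⊕ Fin d) : ℝ :=
  1 / (1 + |aa C S lam j|)

lemma quad (C : Fin N → Fin d → ℝ) (S lam v : Fin d → ℝ) :
    ∑ j, (rr C S lam j * ∑ i, v i * col C S j i) ^ 2 = v ⬝ᵥ (HH C S lam *ᵥ v) := by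
  have h1 : v ⬝ᵥ (HH C S lam *ᵥ v) =
      ∑ i, ∑ i', ∑ j, rr C S lam j ^ 2 * ((v i * col C S j i) * (v i' * col C S j i')) := by
    simp only [dotProduct, mulVec, HH]
    refine Finset.sum_congr rfl fun i _ => ?_
    rw [Finset.mul_sum]
    refine Finset.sum_congr rfl fun i' _ => ?_
    rw [Finset.sum_mul, Finset.mul_sum]
    refine Finset.sum_congr rfl fun j _ => ?_
    simp only [rr]
    ring
  rw [h1]
  have h2 : ∀ j, (rr C S lam j * ∑ i, v i * col C S j i) ^ 2 =
      ∑ i, ∑ i', rr C S lam j ^ 2 * ((v i * col C S j i) * (v i' * col C S j i')) := by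
    intro j
    rw [mul_pow, sq (∑ i, v i * col C S j i), Finset.sum_mul_sum, Finset.mul_sum]
    refine Finset.sum_congr rfl fun i _ => ?_
    rw [Finset.mul_sum]
  simp only [h2]
  rw [Finset.sum_comm]
  refine Finset.sum_congr rfl fun i _ => ?_
  rw [Finset.sum_comm]

lemma quadT (C : Fin N → Fin d → ℝ) (S lam t h : Fin d → ℝ) (T : Matrix (Fin d) (Fin d) ℝ)
    (hT : T * HH C S lam * T.transpose = Matrix.diagonal h) :
    ∑ j, (rr C S lam j * ∑ i, (t ᵥ* T) i * col C S j i) ^ 2 = ∑ i, h i * t i ^ 2 := by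
  rw [quad]
  have h1 : (t ᵥ* T) ⬝ᵥ (HH C S lam *ᵥ (t ᵥ* T)) = t ⬝ᵥ ((T * HH C S lam * T.transpose) *ᵥ t) := by
    rw [← Matrix.mulVec_mulVec, ← Matrix.mulVec_mulVec, Matrix.mulVec_transpose,
      Matrix.dotProduct_mulVec t T]
  rw [h1, hT]
  simp only [dotProduct, Matrix.mulVec_diagonal]
  refine Finset.sum_congr rfl fun i _ => ?_
  ring

lemma vecMul_col (C : Fin N → Fin d → ℝ) (S t : Fin d → ℝ) (T : Matrix (Fin d) (Fin d) ℝ)
    (j : Fin N ⊕ Fin d) :
    ∑ i, (t ᵥ* T) i * col C S j i = ∑ i, t i * ∑ i', T i i' * col C S j i' := by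
  simp only [vecMul, dotProduct, Finset.sum_mul, Finset.mul_sum]
  rw [Finset.sum_comm]
  refine Finset.sum_congr rfl fun i _ => ?_
  refine Finset.sum_congr rfl fun i' _ => ?_
  ring

lemma det_ne (C : Fin N → Fin d → ℝ) (S lam h : Fin d → ℝ) (T : Matrix (Fin d) (Fin d) ℝ)
    (hh : ∀ i, 1 / 2 ≤ h i ∧ h i ≤ 4)
    (hT : T * HH C S lam * T.transpose = Matrix.diagonal h) : T.det ≠ 0 := by
  intro h0
  have h1 := congrArg Matrix.det hT
  rw [Matrix.det_mul, Matrix.det_mul, h0, Matrix.det_diagonal] at h1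
  have h2 : 0 < ∏ i, h i := Finset.prod_pos fun i _ => by linarith [(hh i).1]
  simp at h1
  linarith

/-- BND. -/
theorem bnd (trq : TrqStmt) : BndStmt := by
  intro N d M C S e lam T h k hh hd hN hy hk
  obtain ⟨hv, hhv, hT⟩ := hN
  obtain ⟨-, hrefl, hb⟩ := trq
  have hdet := det_ne C S lam hv T hhv hT
  have hinv : T⁻¹ * T = 1 := Matrix.nonsing_inv_mul T (isUnit_iff_ne_zero.mpr hdet)
  -- notation
  set y : Fin d → ℝ := T.mulVec (gg C S e lam) with hydef
  have hn : (1 : ℝ) ≤ N + d := by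
    have : (1 : ℝ) ≤ (d : ℝ) := by exact_mod_cast hd
    have h0 : (0 : ℝ) ≤ (N : ℝ) := Nat.cast_nonneg N
    linarith
  have hcard : (∑ _j : Fin N ⊕ Fin d, (1 : ℝ)) = N + d := by simp
  -- the defect terms
  have hdef : ∀ a : ℝ, max a 0 - a * mm a = |a| * mm (-|a|) := by
    intro a
    rcases le_or_gt a 0 with ha | ha
    · rw [max_eq_right ha, abs_of_nonpos ha]
      simp
    · rw [max_eq_left ha.le, abs_of_pos ha]
      have := hrefl a
      rw [this]; ring
  have hdef0 : ∀ a : ℝ, 0 ≤ |a| * mm (-|a|) ∧ |a| * mm (-|a|) ≤ 1 := by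
    intro a
    obtain ⟨-, -, h3, -, h5, -, -⟩ := hb |a| (abs_nonneg a)
    exact ⟨mul_nonneg (abs_nonneg a) h3, h5⟩
  -- the rows of t
  have hr0 : ∀ j, 0 < rr C S lam j := fun j => by
    unfold rr; positivity
  have hr1 : ∀ j, rr C S lam j * (1 + |aa C S lam j|) = 1 := fun j => by
    unfold rr
    have : (0 : ℝ) < 1 + |aa C S lam j| := by positivity
    field_simp
  -- mu
  set mu : Fin d → ℝ := lam ᵥ* T⁻¹ with hmu
  have hmuT : mu ᵥ* T = lam := by
    rw [hmu, Matrix.vecMul_vecMul, hinv, Matrix.vecMul_one]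
  have hmuy : ∑ i, lam i * gg C S e lam i = ∑ i, mu i * y i := by
    have h1 : lam ⬝ᵥ gg C S e lam = mu ⬝ᵥ (T *ᵥ gg C S e lam) := by
      rw [Matrix.dotProduct_mulVec, hmuT]
    exact h1
  have hmu2 : ∑ i, hv i * mu i ^ 2 ≤ N + d := by
    rw [← quadT C S lam mu hv T hT, hmuT, ← hcard]
    refine Finset.sum_le_sum fun j _ => ?_
    have h1 : (∑ i, lam i * col C S j i) = aa C S lam j := rfl
    rw [h1]
    have h2 : |rr C S lam j * aa C S lam j| ≤ 1 := by
      rw [abs_mul, abs_of_pos (hr0 j)]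
      nlinarith [hr1 j, hr0 j, abs_nonneg (aa C S lam j)]
    rw [← sq_abs]
    nlinarith [abs_nonneg (rr C S lam j * aa C S lam j)]
  have hmu3 : ∑ i, mu i ^ 2 ≤ 2 * (N + d) := by
    have : ∑ i, mu i ^ 2 ≤ 2 * ∑ i, hv i * mu i ^ 2 := by
      rw [Finset.mul_sum]
      refine Finset.sum_le_sum fun i _ => ?_
      nlinarith [(hhv i).1, sq_nonneg (mu i)]
    linarith
  have hcs : (∑ i, mu i * y i) ^ 2 ≤ (∑ i, mu i ^ 2) * ∑ i, y i ^ 2 :=
    Finset.sum_mul_sq_le_sq_mul_sq _ _ _
  have hlg : |∑ i, lam i * gg C S e lam i| ≤ N + d := by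
    rw [hmuy]
    apply abs_le_of_sq_le_sq _ (by linarith)
    refine hcs.trans ?_
    have h0 : 0 ≤ ∑ i, mu i ^ 2 := Finset.sum_nonneg fun i _ => sq_nonneg _
    calc (∑ i, mu i ^ 2) * ∑ i, y i ^ 2 ≤ (2 * (N + d)) * (1 / 10 ^ 13) := by
          apply mul_le_mul hmu3 hy (Finset.sum_nonneg fun i _ => sq_nonneg _) (by linarith)
      _ ≤ (N + d) ^ 2 := by nlinarith
  -- the exponent
  have hE : Eex C S e lam = (∑ j, |aa C S lam j| * mm (-|aa C S lam j|)) +
      ∑ i, lam i * gg C S e lam i := by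
    have h1 : ∑ i, lam i * gg C S e lam i =
        (∑ j, aa C S lam j * mm (aa C S lam j)) - ∑ i, lam i * e i := by
      simp only [gg, mul_sub, Finset.sum_sub_distrib, Finset.mul_sum]
      congr 1
      rw [Finset.sum_comm]
      refine Finset.sum_congr rfl fun j _ => ?_
      rw [aa, Finset.sum_mul]
      refine Finset.sum_congr rfl fun i _ => ?_
      ring
    rw [h1]
    have h2 : ∑ j, |aa C S lam j| * mm (-|aa C S lam j|) =
        (∑ j, max (aa C S lam j) 0) - ∑ j, aa C S lam j * mm (aa C S lam j) := by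
      rw [← Finset.sum_sub_distrib]
      exact Finset.sum_congr rfl fun j _ => (hdef _).symm
    rw [h2]
    simp only [Eex]
    ring
  -- the frequencies
  set t : Fin d → ℝ := fun i => h * k i with ht
  have hsjk : ∀ j, sjk C S T h k j = ∑ i, (t ᵥ* T) i * col C S j i := by
    intro j
    rw [vecMul_col]
    simp only [sjk, ht]
  have hM0 : (0 : ℝ) ≤ M := Nat.cast_nonneg M
  have hd1 : (1 : ℝ) ≤ d := by exact_mod_cast hd
  have ht2 : ∑ i, t i ^ 2 ≤ (d * h * M) ^ 2 := by
    have h1 : ∀ i, t i ^ 2 ≤ (h * M) ^ 2 := by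
      intro i
      have h2 : |(k i : ℝ)| ≤ M := by
        have h3 := Fintype.mem_piFinset.mp hk i
        rw [Finset.mem_Icc] at h3
        rw [abs_le]
        constructor
        · exact_mod_cast h3.1
        · exact_mod_cast h3.2
      have h4 : |t i| ≤ h * M := by
        simp only [ht]
        rw [abs_mul, abs_of_pos hh]
        exact mul_le_mul_of_nonneg_left h2 hh.le
      rw [← sq_abs]
      exact pow_le_pow_left₀ (abs_nonneg _) h4 2
    calc ∑ i, t i ^ 2 ≤ ∑ _i : Fin d, (h * M) ^ 2 := Finset.sum_le_sum fun i _ => h1 i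
      _ = d * (h * M) ^ 2 := by simp
      _ ≤ d ^ 2 * (h * M) ^ 2 := by
          apply mul_le_mul_of_nonneg_right _ (sq_nonneg _)
          nlinarith
      _ = (d * h * M) ^ 2 := by ring
  have hA0 : 0 ≤ d * h * M := by positivity
  have hs2 : ∑ j, (rr C S lam j * sjk C S T h k j) ^ 2 ≤ 4 * (d * h * M) ^ 2 := by
    have h1 : ∑ j, (rr C S lam j * sjk C S T h k j) ^ 2 = ∑ i, hv i * t i ^ 2 := by
      rw [← quadT C S lam t hv T hT]
      exact Finset.sum_congr rfl fun j _ => by rw [hsjk]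
    rw [h1]
    calc ∑ i, hv i * t i ^ 2 ≤ ∑ i, 4 * t i ^ 2 :=
          Finset.sum_le_sum fun i _ => mul_le_mul_of_nonneg_right (hhv i).2 (sq_nonneg _)
      _ = 4 * ∑ i, t i ^ 2 := by rw [Finset.mul_sum]
      _ ≤ _ := by linarith
  have hs : ∀ j, |sjk C S T h k j| ≤ 2 * (d * h * M) * (1 + |aa C S lam j|) := by
    intro j
    have h1 : (rr C S lam j * sjk C S T h k j) ^ 2 ≤ (2 * (d * h * M)) ^ 2 := by
      calc (rr C S lam j * sjk C S T h k j) ^ 2 ≤ ∑ j, (rr C S lam j * sjk C S T h k j) ^ 2 :=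
            Finset.single_le_sum (f := fun j => (rr C S lam j * sjk C S T h k j) ^ 2)
              (fun j _ => sq_nonneg _) (Finset.mem_univ j)
        _ ≤ _ := hs2
        _ = _ := by ring
    have h2 : |rr C S lam j * sjk C S T h k j| ≤ 2 * (d * h * M) :=
      abs_le_of_sq_le_sq h1 (by linarith)
    rw [abs_mul, abs_of_pos (hr0 j)] at h2
    have h3 : (0 : ℝ) < 1 + |aa C S lam j| := by positivity
    calc |sjk C S T h k j| = (rr C S lam j * |sjk C S T h k j|) * (1 + |aa C S lam j|) := by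
          rw [mul_right_comm, hr1 j, one_mul]
      _ ≤ _ := mul_le_mul_of_nonneg_right h2 h3.le
  refine ⟨?_, ?_, hs⟩
  · rw [hE]
    have h1 : 0 ≤ ∑ j, |aa C S lam j| * mm (-|aa C S lam j|) :=
      Finset.sum_nonneg fun j _ => (hdef0 _).1
    have h2 : ∑ j, |aa C S lam j| * mm (-|aa C S lam j|) ≤ N + d := by
      rw [← hcard]
      exact Finset.sum_le_sum fun j _ => (hdef0 _).2
    have h3 := abs_le.mp hlg
    rw [abs_le]
    constructor <;> linarith [h3.1, h3.2]
  · -- the phase
    have hty : (∑ i, t i * y i) ^ 2 ≤ (∑ i, t i ^ 2) * ∑ i, y i ^ 2 :=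
      Finset.sum_mul_sq_le_sq_mul_sq _ _ _
    have hty2 : |∑ i, t i * y i| ≤ d * h * M := by
      apply abs_le_of_sq_le_sq _ hA0
      refine hty.trans ?_
      have h0 : 0 ≤ ∑ i, y i ^ 2 := Finset.sum_nonneg fun i _ => sq_nonneg _
      have h1 : ∑ i, y i ^ 2 ≤ 1 := hy.trans (by norm_num)
      calc (∑ i, t i ^ 2) * ∑ i, y i ^ 2 ≤ (d * h * M) ^ 2 * 1 :=
            mul_le_mul ht2 h1 h0 (sq_nonneg _)
        _ = _ := by ring
    -- t . T e
    have hTe : ∑ i, h * k i * ∑ i', T i i' * e i' =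
        (∑ j, mm (aa C S lam j) * sjk C S T h k j) - ∑ i, t i * y i := by
      have h1 : ∀ i, ∑ i', T i i' * e i' =
          (∑ j, mm (aa C S lam j) * ∑ i', T i i' * col C S j i') - y i := by
        intro i
        have h2 : y i = ∑ i', T i i' * ((∑ j, mm (aa C S lam j) * col C S j i') - e i') := rfl
        rw [h2]
        have h3 : ∑ j, mm (aa C S lam j) * ∑ i', T i i' * col C S j i' =
            ∑ i', T i i' * ∑ j, mm (aa C S lam j) * col C S j i' := by
          simp only [Finset.mul_sum]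
          rw [Finset.sum_comm]
          exact Finset.sum_congr rfl fun j _ => Finset.sum_congr rfl fun i' _ => by ring
        rw [h3]
        simp only [mul_sub, Finset.sum_sub_distrib]
        ring
      simp only [h1]
      have h4 : ∀ i, h * k i * ((∑ j, mm (aa C S lam j) * ∑ i', T i i' * col C S j i') - y i) =
          (∑ j, mm (aa C S lam j) * (h * k i * ∑ i', T i i' * col C S j i')) - t i * y i := by
        intro i
        simp only [ht]
        rw [mul_sub, Finset.mul_sum]
        congr 1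
        exact Finset.sum_congr rfl fun j _ => by ring
      simp only [h4]
      rw [Finset.sum_sub_distrib, Finset.sum_comm]
      congr 1
      refine Finset.sum_congr rfl fun j _ => ?_
      rw [← Finset.mul_sum]
      rfl
    have hPsi : Psi C S e lam T h k = (∑ i, t i * y i) +
        ∑ j, ((if 0 < aa C S lam j then sjk C S T h k j else 0) -
          mm (aa C S lam j) * sjk C S T h k j) := by
      rw [Finset.sum_sub_distrib]
      simp only [Psi]
      rw [hTe]
      ring
    have hterm : ∀ j, |(if 0 < aa C S lam j then sjk C S T h k j else 0) -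
          mm (aa C S lam j) * sjk C S T h k j| ≤ 4 * (d * h * M) := by
      intro j
      obtain ⟨-, -, h3, h4, -, -, -⟩ := hb |aa C S lam j| (abs_nonneg _)
      have h5 : |(if 0 < aa C S lam j then sjk C S T h k j else 0) -
          mm (aa C S lam j) * sjk C S T h k j| = mm (-|aa C S lam j|) * |sjk C S T h k j| := by
        split_ifs with hpos
        · have h6 : sjk C S T h k j - mm (aa C S lam j) * sjk C S T h k j =
              mm (-|aa C S lam j|) * sjk C S T h k j := by
            rw [abs_of_pos hpos, hrefl (aa C S lam j)]; ring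
          rw [h6, abs_mul, abs_of_nonneg h3]
        · have h6 : (0 : ℝ) - mm (aa C S lam j) * sjk C S T h k j =
              -(mm (-|aa C S lam j|) * sjk C S T h k j) := by
            rw [abs_of_nonpos (not_lt.mp hpos)]
            simp
          rw [h6, abs_neg, abs_mul, abs_of_nonneg h3]
      rw [h5]
      have h7 : (0 : ℝ) < 1 + |aa C S lam j| := by positivity
      calc mm (-|aa C S lam j|) * |sjk C S T h k j|
          ≤ (2 / (1 + |aa C S lam j|)) * (2 * (d * h * M) * (1 + |aa C S lam j|)) :=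
            mul_le_mul h4 (hs j) (abs_nonneg _) (by positivity)
        _ = 4 * (d * h * M) := by field_simp; ring
    rw [hPsi]
    calc |(∑ i, t i * y i) + ∑ j, ((if 0 < aa C S lam j then sjk C S T h k j else 0) -
          mm (aa C S lam j) * sjk C S T h k j)|
        ≤ |∑ i, t i * y i| + ∑ j, |(if 0 < aa C S lam j then sjk C S T h k j else 0) -
          mm (aa C S lam j) * sjk C S T h k j| :=
          (abs_add_le _ _).trans (add_le_add_right (Finset.abs_sum_le_sum_abs _ _) _)
      _ ≤ d * h * M + ∑ _j : Fin N ⊕ Fin d, 4 * (d * h * M) :=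
          add_le_add hty2 (Finset.sum_le_sum fun j _ => hterm j)
      _ = _ := by
          rw [show (∑ _j : Fin N ⊕ Fin d, 4 * (d * h * M)) =
            (∑ _j : Fin N ⊕ Fin d, (1 : ℝ)) * (4 * (d * h * M)) by
              rw [Finset.sum_mul]; simp, hcard]
          ring

end

end Pool.Agent.Helper44.FR
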